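import Pool.Agent.N640.WR.Stm
import Pool.Agent.X76.PM13

/-!
# WR/ELIM (helper787, project WR of helper640): edge colouring of multigraphs vertex by vertex, with
local conditions. The proof is the one of `Pool.Agent.X76.PM.mvizing` with small changes.
-/

set_option autoImplicit false

namespace Pool.Agent.N787.WR

open Finset Pool.Agent.MPd14d18 Pool.Agent.X76.PM

theorem elim_ : Pool.Agent.N640.WR.S_ELIM := by
  intro V _ _ z N T hs hd hyp
  classical
  let L : Finset ℕ := Finset.range N
  have hL : L.card = N := Finset.card_range _
  have hall : ∀ (n : ℕ) (S : Finset V), S ⊆ T → S.card = n →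
      ∃ m : ℕ → V → V, (∀ c v, m c (m c v) = v) ∧
      ∀ u w, u ≠ w → mu L m u w = if u ∈ S ∧ w ∈ S then z u w else 0 := by
    intro n
    induction n with
    | zero =>
      intro S _ hS
      have hS0 : S = ∅ := Finset.card_eq_zero.1 hS
      subst hS0
      refine ⟨fun _ v => v, fun _ _ => rfl, ?_⟩
      intro u w huw
      rw [mu_eq_card, Finset.card_eq_zero.2]
      · simp
      · rw [Finset.filter_eq_empty_iff]
        intro _ _ h
        exact huw h
    | succ n ih =>
      intro S hST hScard
      have hne : S.Nonempty := Finset.card_pos.1 (by omega)
      obtain ⟨x, hxS, u0, hxu⟩ := hyp S hST hne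
      obtain ⟨X, hX⟩ : ∃ X, X = S.erase x := ⟨_, rfl⟩
      have hx : x ∉ X := by rw [hX]; exact Finset.notMem_erase _ _
      have hSX : S = insert x X := by rw [hX, Finset.insert_erase hxS]
      have hXT : X ⊆ T := by rw [hX]; exact (Finset.erase_subset _ _).trans hST
      obtain ⟨m, hm, hmu⟩ := ih X hXT (by rw [hX, Finset.card_erase_of_mem hxS]; omega)
      have hmiss : ∀ u, (L.filter (fun c => m c u = u)).card +
          ∑ w ∈ univ.erase u, (if u ∈ X ∧ w ∈ X then z u w else 0) = N := by
        intro u
        rw [← hL, ← missing_add L m u]
        congr 1
        refine Finset.sum_congr rfl fun w hw => ?_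
        rw [mem_erase] at hw
        exact (hmu u w hw.1.symm).symm
      have hxi : ∀ c ∈ L, m c x = x := by
        have h1 := hmiss x
        rw [Finset.sum_eq_zero (fun w _ => if_neg (fun h => hx h.1)), add_zero, ← hL] at h1
        exact Finset.card_filter_eq_iff.mp h1
      let k : V → ℕ := fun u => if u ∈ X then z x u else 0
      have hksum : ∑ u, k u ≤ N := by
        have e1 : ∑ u, k u = ∑ u ∈ X, z x u := by
          simp only [k]
          rw [← Finset.sum_filter]
          congr 1
          ext u
          simp
        rw [e1]
        refine le_trans (Finset.sum_le_sum_of_subset ?_) (hd x (hST hxS))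
        intro u hu
        rw [Finset.mem_erase]
        exact ⟨fun h => hx (h ▸ hu), hXT hu⟩
      obtain ⟨m', hm', -, hmu'⟩ := add_vertex' x N L hL m hm hxi k u0
        (by simp [k, hx]) hksum (by
          intro u
          have h1 := hmiss u
          by_cases hu : u ∈ X
          · have hux : u ≠ x := fun h => hx (h ▸ hu)
            by_cases hz0 : z x u = 0
            · simp only [k, hu, if_true, hz0]
              omega
            · have h2 := hxu u (by rw [hSX]; exact Finset.mem_insert_of_mem hu) hux hz0
              have e1 : ∑ w ∈ univ.erase u, (if u ∈ X ∧ w ∈ X then z u w else 0) =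
                  ∑ w ∈ X.erase u, z u w := by
                have e2 : ∑ w ∈ univ.erase u, (if u ∈ X ∧ w ∈ X then z u w else 0) =
                    ∑ w ∈ univ.erase u, (if w ∈ X then z u w else 0) :=
                  Finset.sum_congr rfl fun w _ => by simp [hu]
                rw [e2, ← Finset.sum_filter]
                congr 1
                ext w
                simp only [mem_filter, mem_erase, mem_univ, and_true]
              have e3 : ∑ w ∈ S.erase u, z u w = z u x + ∑ w ∈ X.erase u, z u w := by
                have e4 : S.erase u = insert x (X.erase u) := by
                  rw [hSX, Finset.erase_insert_of_ne hux.symm]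
                rw [e4, Finset.sum_insert]
                intro h
                exact hx (Finset.mem_of_mem_erase h)
              have h3 := hs x u
              simp only [k, hu, if_true]
              split_ifs at h2 ⊢ <;> omega
          · simp only [k, hu, if_false]
            omega)
      refine ⟨m', hm', ?_⟩
      intro u w huw
      rw [hmu' u w huw, hmu u w huw, hSX]
      simp only [mem_insert, k]
      by_cases hux : u = x
      · have hwx : w ≠ x := fun h => huw (hux.trans h.symm)
        subst hux
        simp [hx, hwx]
      · by_cases hwx : w = x
        · subst hwx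
          simp [hx, hux, hs w u]
        · simp [hux, hwx]
  exact hall T.card T subset_rfl rfl

end Pool.Agent.N787.WR
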